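import Mathlib

/-!
The direct product of two tunable frames need not be tunable: the frames are the natural numbers
with their order, and the natural numbers with equality.
-/

namespace Pool.Agent.Results.MP_b20271_lc.ProductNotTunable

/-- The family `B` refines the family `A`: every member of `A` is a union of members of `B`. -/
def Refines {W : Type} (B A : Set (Set W)) : Prop :=
  ∀ U ∈ A, ∃ C : Set (Set W), C ⊆ B ∧ U = ⋃₀ C

/-- The family `A` is tuned in the frame `(W, R)`. -/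
def Tuned {W : Type} (R : W → W → Prop) (A : Set (Set W)) : Prop :=
  ∀ U ∈ A, ∀ V ∈ A, (∃ u ∈ U, ∃ v ∈ V, R u v) → ∀ u ∈ U, ∃ v ∈ V, R u v

/-- The frame `(W, R)` is tunable: every finite partition of `W` has a finite refinement that is
a tuned partition. -/
def Tunable {W : Type} (R : W → W → Prop) : Prop :=
  ∀ A : Set (Set W), Setoid.IsPartition A → A.Finite →
    ∃ B : Set (Set W), Setoid.IsPartition B ∧ B.Finite ∧ Refines B A ∧ Tuned R B

/-- The relation of the direct product of two frames (acting coordinatewise). -/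
def prodRel {W₁ W₂ : Type} (R₁ : W₁ → W₁ → Prop) (R₂ : W₂ → W₂ → Prop) :
    W₁ × W₂ → W₁ × W₂ → Prop :=
  fun x y => R₁ x.1 y.1 ∧ R₂ x.2 y.2

lemma tunable_eq : Tunable (fun x y : ℕ => x = y) := by
  intro A hA hfin
  refine ⟨A, hA, hfin, ?_, ?_⟩
  · intro U hU
    exact ⟨{U}, by simpa using hU, by simp⟩
  · rintro U hU V hV ⟨u, hu, v, hv, rfl⟩ w hw
    have : U = V := by
      obtain ⟨b, -, hb⟩ := hA.2 u
      have h1 := hb U ⟨hU, hu⟩
      have h2 := hb V ⟨hV, hv⟩
      rw [h1, h2]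
    subst this
    exact ⟨w, hw, rfl⟩

lemma tunable_le : Tunable (fun x y : ℕ => x ≤ y) := by
  classical
  intro A hA hfin
  -- a bound for the finite members of the partition
  obtain ⟨N, hN⟩ : ∃ N : ℕ, ∀ U ∈ A, U.Finite → ∀ x ∈ U, x < N := by
    have hf : (⋃₀ {U ∈ A | U.Finite}).Finite := by
      apply Set.Finite.sUnion
      · exact hfin.subset (fun U hU => hU.1)
      · intro U hU; exact hU.2
    obtain ⟨N, hN⟩ := hf.bddAbove
    refine ⟨N + 1, fun U hU hUf x hx => Nat.lt_succ_of_le (hN ⟨U, ⟨hU, hUf⟩, hx⟩)⟩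
  let r : Setoid ℕ :=
    { r := fun i j => i = j ∨ (N ≤ i ∧ N ≤ j ∧ ∃ U ∈ A, i ∈ U ∧ j ∈ U)
      iseqv := by
        refine ⟨fun i => Or.inl rfl, ?_, ?_⟩
        · rintro i j (h | ⟨h1, h2, U, hU, hi, hj⟩)
          · exact Or.inl h.symm
          · exact Or.inr ⟨h2, h1, U, hU, hj, hi⟩
        · rintro i j k (h | ⟨h1, h2, U, hU, hi, hj⟩) (h' | ⟨h1', h2', V, hV, hj', hk⟩)
          · exact Or.inl (h.trans h')
          · subst h; exact Or.inr ⟨h1', h2', V, hV, hj', hk⟩
          · subst h'; exact Or.inr ⟨h1, h2, U, hU, hi, hj⟩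
          · have : U = V := by
              obtain ⟨b, -, hb⟩ := hA.2 j
              rw [hb U ⟨hU, hj⟩, hb V ⟨hV, hj'⟩]
            subst this
            exact Or.inr ⟨h1, h2', U, hU, hi, hk⟩ }
  have hr : ∀ i j, r i j ↔ (i = j ∨ (N ≤ i ∧ N ≤ j ∧ ∃ U ∈ A, i ∈ U ∧ j ∈ U)) :=
    fun i j => Iff.rfl
  refine ⟨r.classes, r.isPartition_classes, ?_, ?_, ?_⟩
  · -- finiteness
    have hsub : r.classes ⊆ ((fun i => ({i} : Set ℕ)) '' (Set.Iio N)) ∪
        ((fun U : Set ℕ => U ∩ Set.Ici N) '' A) := by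
      rintro C ⟨a, rfl⟩
      by_cases ha : a < N
      · left
        refine ⟨a, ha, ?_⟩
        ext x
        simp only [Set.mem_singleton_iff, Set.mem_setOf_eq, hr]
        constructor
        · intro h; exact Or.inl h
        · rintro (h | ⟨-, h2, -⟩)
          · exact h
          · omega
      · right
        obtain ⟨U, ⟨hU, haU⟩, hUu⟩ := hA.2 a
        refine ⟨U, hU, ?_⟩
        ext x
        simp only [Set.mem_inter_iff, Set.mem_Ici, Set.mem_setOf_eq, hr]
        constructor
        · rintro ⟨hx, hxN⟩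
          exact Or.inr ⟨hxN, by omega, U, hU, hx, haU⟩
        · rintro (h | ⟨h1, h2, V, hV, hxV, haV⟩)
          · subst h; exact ⟨haU, by omega⟩
          · have : V = U := hUu V ⟨hV, haV⟩
            subst this
            exact ⟨hxV, h1⟩
    refine Set.Finite.subset ?_ hsub
    exact ((Set.finite_Iio N).image _).union (hfin.image _)
  · -- refinement
    intro U hU
    refine ⟨{C ∈ r.classes | C ⊆ U}, fun C hC => hC.1, ?_⟩
    ext x
    simp only [Set.mem_sUnion, Set.mem_setOf_eq]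
    constructor
    · intro hx
      refine ⟨{y | r y x}, ⟨⟨x, rfl⟩, ?_⟩, r.refl x⟩
      intro y hy
      rcases (hr y x).1 hy with h | ⟨-, -, V, hV, hyV, hxV⟩
      · rw [h]; exact hx
      · have : U = V := by
          obtain ⟨b, -, hb⟩ := hA.2 x
          rw [hb U ⟨hU, hx⟩, hb V ⟨hV, hxV⟩]
        rw [this]; exact hyV
    · rintro ⟨C, ⟨-, hCU⟩, hxC⟩
      exact hCU hxC
  · -- tunedness
    rintro C ⟨a, rfl⟩ D ⟨b, rfl⟩ ⟨u, hu, v, hv, huv⟩ w hw
    simp only [Set.mem_setOf_eq] at hu hv hw ⊢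
    have huw : r w u := r.trans hw (r.symm hu)
    rcases (hr w u).1 huw with h | ⟨h1, h2, -⟩
    · subst h; exact ⟨v, hv, huv⟩
    · have hvN : N ≤ v := h2.trans huv
      obtain ⟨V, ⟨hV, hvV⟩, -⟩ := hA.2 v
      have hinf : V.Infinite := by
        intro hVf
        exact absurd (hN V hV hVf v hvV) (by omega)
      obtain ⟨y, hyV, hy⟩ := hinf.exists_gt (max w N)
      have hyw : w < y := lt_of_le_of_lt (le_max_left _ _) hy
      have hyN : N < y := lt_of_le_of_lt (le_max_right _ _) hy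
      refine ⟨y, r.trans ?_ hv, hyw.le⟩
      exact (hr y v).2 (Or.inr ⟨hyN.le, hvN, V, hV, hyV, hvV⟩)

/-- In copy `n` of the order the odd numbers up to `2 * n + 1` are marked. -/
def mark : Set (ℕ × ℕ) := {x | x.1 % 2 = 1 ∧ x.1 ≤ 2 * x.2 + 1}

lemma not_tunable_prod :
    ¬ Tunable (prodRel (fun x y : ℕ => x ≤ y) (fun x y : ℕ => x = y)) := by
  intro h
  have hne : mark.Nonempty := ⟨(1, 0), by simp [mark]⟩
  have hne' : (markᶜ : Set (ℕ × ℕ)).Nonempty := ⟨(0, 0), by simp [mark]⟩
  have hpart : Setoid.IsPartition ({mark, markᶜ} : Set (Set (ℕ × ℕ))) := by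
    constructor
    · rintro (h | h)
      · exact hne.ne_empty h.symm
      · exact hne'.ne_empty (Eq.symm h)
    · intro a
      by_cases ha : a ∈ mark
      · refine ⟨mark, ⟨by simp, ha⟩, ?_⟩
        rintro C ⟨hC, haC⟩
        rcases hC with rfl | hC
        · rfl
        · rw [Set.mem_singleton_iff] at hC
          subst hC; exact absurd ha haC
      · refine ⟨markᶜ, ⟨by simp, ha⟩, ?_⟩
        rintro C ⟨hC, haC⟩
        rcases hC with rfl | hC
        · exact absurd haC ha
        · exact hC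
  obtain ⟨B, hB, hBfin, hBA, hBt⟩ := h _ hpart (by simp)
  -- the class of a point
  have hcls : ∀ x : ℕ × ℕ, ∃ C ∈ B, x ∈ C := fun x => by
    obtain ⟨C, ⟨hC, hx⟩, -⟩ := hB.2 x
    exact ⟨C, hC, hx⟩
  -- members of a class agree on `mark`
  have hmark : ∀ C ∈ B, ∀ x ∈ C, ∀ y ∈ C, x ∈ mark → y ∈ mark := by
    intro C hC x hx y hy hxm
    obtain ⟨D, hDB, hD⟩ := hBA mark (by simp)
    have hxD : x ∈ ⋃₀ D := hD ▸ hxm
    obtain ⟨E, hED, hxE⟩ := hxD
    have : E = C := by
      obtain ⟨b, -, hb⟩ := hB.2 x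
      rw [hb E ⟨hDB hED, hxE⟩, hb C ⟨hC, hx⟩]
    subst this
    rw [hD]
    exact ⟨E, hED, hy⟩
  choose cls hclsB hclsm using hcls
  -- two of the points `(0, n)` lie in one class
  obtain ⟨n, m, hnm, hC⟩ : ∃ n m : ℕ, n < m ∧ cls (0, n) = cls (0, m) := by
    have hmaps : ∀ n : ℕ, cls (0, n) ∈ B := fun n => hclsB _
    by_contra hcon
    push Not at hcon
    have hinj : Function.Injective (fun n : ℕ => (⟨cls (0, n), hmaps n⟩ : B)) := by
      intro a b hab
      simp only [Subtype.mk.injEq] at hab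
      rcases lt_trichotomy a b with h | h | h
      · exact absurd hab (hcon a b h)
      · exact h
      · exact absurd hab.symm (hcon b a h)
    have : Finite B := hBfin
    exact (Infinite.of_injective _ hinj).not_finite this
  -- transfer of the alternating chain
  have key : ∀ k : ℕ, k ≤ 2 * m + 1 → ∃ v ∈ cls (k, m), v.2 = n ∧ k ≤ v.1 := by
    intro k
    induction k with
    | zero =>
      intro _
      exact ⟨(0, n), hC ▸ hclsm (0, n), rfl, le_rfl⟩
    | succ k ih =>
      intro hk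
      obtain ⟨v, hv, hv2, hv1⟩ := ih (by omega)
      obtain ⟨v', hv', hR⟩ := hBt (cls (k, m)) (hclsB _) (cls (k + 1, m)) (hclsB _)
        ⟨(k, m), hclsm _, (k + 1, m), hclsm _, ⟨Nat.le_succ k, rfl⟩⟩ v hv
      refine ⟨v', hv', hR.2 ▸ hv2, ?_⟩
      have hle : v.1 ≤ v'.1 := hR.1
      rcases Nat.lt_or_ge k v'.1 with h | h
      · exact h
      · exfalso
        have h1 : v'.1 = k := le_antisymm h (hv1.trans hle)
        have h2 : v.1 = k := le_antisymm (hle.trans h) hv1
        have hvv : v = v' := by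
          apply Prod.ext
          · rw [h1, h2]
          · exact hR.2
        have e1 : v ∈ mark ↔ (k, m) ∈ mark :=
          ⟨fun h => hmark _ (hclsB _) _ hv _ (hclsm _) h,
            fun h => hmark _ (hclsB _) _ (hclsm _) _ hv h⟩
        have e2 : v' ∈ mark ↔ (k + 1, m) ∈ mark :=
          ⟨fun h => hmark _ (hclsB _) _ hv' _ (hclsm _) h,
            fun h => hmark _ (hclsB _) _ (hclsm _) _ hv' h⟩
        rw [hvv, e2] at e1
        simp only [mark, Set.mem_setOf_eq] at e1
        omega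
  obtain ⟨v, hv, hv2, hv1⟩ := key (2 * m + 1) le_rfl
  have : v ∈ mark := hmark _ (hclsB _) _ (hclsm _) _ hv (by
    simp only [mark, Set.mem_setOf_eq]; omega)
  simp only [mark, Set.mem_setOf_eq] at this
  omega

/-- The frames `(ℕ, ≤)` and `(ℕ, =)` are tunable and their direct product is not. -/
theorem result :
    Tunable (fun x y : ℕ => x ≤ y) ∧ Tunable (fun x y : ℕ => x = y) ∧
      ¬ Tunable (prodRel (fun x y : ℕ => x ≤ y) (fun x y : ℕ => x = y)) :=
  ⟨tunable_le, tunable_eq, not_tunable_prod⟩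

end Pool.Agent.Results.MP_b20271_lc.ProductNotTunable
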